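import Pool.Agent.Helper136_OrPath.Split

set_option autoImplicit false

/-!
# Every oriented path of length `k` in oriented graphs of minimum semidegree about `3 k / 4`

If all out- and indegrees of an oriented graph are at least `3 k / 4 + E`, where `E ^ 4` is at least
`6 * 10 ^ 6 * k ^ 3 * log (k + 1)`, then the graph contains every oriented path of length `k`.
For each oriented path there is one of its vertices which can be placed at any prescribed vertex of
the graph.
-/

namespace Pool.Agent.Results.MP_b70133_co.Asymptotic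

open Finset Pool.Agent.Helper136_OrPath

theorem result :
    ∀ (k : ℕ) (σ : Fin k → Bool), ∃ p : Fin (k + 1),
      ∀ (E : ℝ), 0 ≤ E → 6 * 10 ^ 6 * (k : ℝ) ^ 3 * Real.log ((k : ℝ) + 1) ≤ E ^ 4 →
      ∀ (V : Type) [Finite V] (G : Digraph V),
      (∀ v, ¬ G.Adj v v) →
      (∀ u v, G.Adj u v → ¬ G.Adj v u) →
      (∀ v, 3 * (k : ℝ) / 4 + E ≤ ({w | G.Adj v w}.ncard : ℝ) ∧
        3 * (k : ℝ) / 4 + E ≤ ({w | G.Adj w v}.ncard : ℝ)) →
      ∀ v₀ : V, ∃ f : Fin (k + 1) → V, Function.Injective f ∧ f p = v₀ ∧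
        ∀ i : Fin k, (σ i = true → G.Adj (f i.castSucc) (f i.succ)) ∧
          (σ i = false → G.Adj (f i.succ) (f i.castSucc)) := by
  classical
  intro k σ
  obtain ⟨p, hp, m, hm1, hm⟩ := exists_split k σ
  refine ⟨⟨p, by omega⟩, ?_⟩
  intro E hE0 hE V _ G _ hasym hd v₀
  have : Fintype V := Fintype.ofFinite V
  have hcard : ∀ (b : Bool) (v : V), (nb G.Adj b v).card =
      if b then {w | G.Adj v w}.ncard else {w | G.Adj w v}.ncard := by
    intro b v
    cases b
    · rw [if_neg (by simp)]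
      rw [← Set.ncard_coe_finset]
      congr 1
      ext z
      simp [mem_nb]
    · rw [if_pos rfl]
      rw [← Set.ncard_coe_finset]
      congr 1
      ext z
      simp [mem_nb]
  have hlow : ∀ (b : Bool) (v : V), ⌈3 * (k : ℝ) / 4 + E⌉₊ ≤ (nb G.Adj b v).card := by
    intro b v
    rw [hcard]
    cases b
    · rw [if_neg (by simp)]
      exact Nat.ceil_le.2 (hd v).2
    · rw [if_pos rfl]
      exact Nat.ceil_le.2 (hd v).1
  rcases Nat.eq_zero_or_pos k with hk0 | hkpos
  · subst hk0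
    refine ⟨fun _ => v₀, ?_, rfl, fun i => i.elim0⟩
    intro a b _
    exact Fin.ext (by omega)
  obtain ⟨h1, h2⟩ := absorb k E 3 _ hkpos hE0 le_rfl rfl hE
  obtain ⟨f, hf1, hf2, hf3⟩ := path_two G.Adj hasym k p m ⌈3 * (k : ℝ) / 4 + E⌉₊ hp σ hm hlow
    (E - 3) h2 h1
    (by
      have h3 := Nat.le_ceil (3 * (k : ℝ) / 4 + E)
      have h4 : 4 * (m : ℝ) ≤ 3 * k + 8 := by exact_mod_cast hm1
      linarith) v₀
  refine ⟨f, hf1, hf2, ?_⟩
  intro i
  have h3 := hf3 i
  rw [mem_nb] at h3
  constructor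
  · intro hi
    rw [hi, if_pos rfl] at h3
    exact h3
  · intro hi
    rw [hi, if_neg (by simp)] at h3
    exact h3

end Pool.Agent.Results.MP_b70133_co.Asymptotic
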